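import Pool.Agent.TH131.Ord.Defs

/-!
# Ordinary places: the dévissage
-/

set_option autoImplicit false

open CategoryTheory CategoryTheory.Limits AlgebraicGeometry

namespace Pool.Agent.TH131.Ord

open Pool.Agent.TH90.Cub Pool.Agent.TH590.JH

universe v u

attribute [local instance] Abelian.hasFiniteBiproducts

section

variable {𝓐 : Type u} [Category.{v} 𝓐] [Abelian 𝓐]

lemma sub_of_mono {A B : 𝓐} (i : A ⟶ B) [Mono i] : SubQuot A B :=
  ⟨A, i, 𝟙 A, inferInstance, inferInstance⟩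

lemma quot_of_epi {A B : 𝓐} (p : A ⟶ B) [Epi p] : SubQuot B A :=
  ⟨A, 𝟙 A, p, inferInstance, inferInstance⟩

lemma HasSeries.subquot {M : 𝓐} {L : List 𝓐} (h : HasSeries M L) :
    ∀ S ∈ L, Simple S ∧ SubQuot S M := by
  induction h with
  | zero M hM => simp
  | cons E L hE hL hs ih =>
    intro S hS
    have h1 : Mono E.f := hE.mono_f
    have h2 : Epi E.g := hE.epi_g
    rcases List.mem_cons.1 hS with rfl | hS'
    · exact ⟨hs, quot_of_epi E.g⟩
    · exact ⟨(ih S hS').1, (ih S hS').2.trans (sub_of_mono E.f)⟩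

end

namespace Slopes

variable {k : Type} [Field k] {𝓐 : Type u} [Category.{v} 𝓐] [Abelian 𝓐] {T : Theory k 𝓐}
  {P : Type} {generic : Filter P} (𝒮 : Slopes T generic)

lemma ord_exact (E : ShortComplex 𝓐) (hE : E.ShortExact) :
    ∀ᶠ v in generic, (v ∈ 𝒮.Ord E.X₂ ↔ v ∈ 𝒮.Ord E.X₁ ∧ v ∈ 𝒮.Ord E.X₃) := by
  filter_upwards [(𝒮.exact E hE).2, 𝒮.mazur E.X₁, 𝒮.mazur E.X₃] with v hv h1 h3
  unfold Ord
  simp only [Set.mem_ofPred_eq]
  rw [hv, (𝒮.exact E hE).1]
  constructor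
  · intro h
    exact eq_and_eq h1 h3 h
  · rintro ⟨h, h'⟩
    rw [h, h']

lemma ord_subquot {M N : 𝓐} (h : SubQuot M N) :
    ∀ᶠ v in generic, v ∈ 𝒮.Ord N → v ∈ 𝒮.Ord M := by
  obtain ⟨Y, i, p, hi, hp⟩ := h
  have h1 : (ShortComplex.mk i (cokernel.π i) (cokernel.condition i)).ShortExact :=
    { exact := ShortComplex.exact_cokernel i }
  have h2 : (ShortComplex.mk (kernel.ι p) p (kernel.condition p)).ShortExact :=
    { exact := ShortComplex.exact_kernel p }
  filter_upwards [𝒮.ord_exact _ h1, 𝒮.ord_exact _ h2] with v hv1 hv2 hN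
  exact (hv2.1 (hv1.1 hN).1).2

lemma ord_twist (n : ℤ) (M : 𝓐) :
    ∀ᶠ v in generic, (v ∈ 𝒮.Ord ((T.tw n).obj M) ↔ v ∈ 𝒮.Ord M) := by
  filter_upwards [(𝒮.twist n M).2] with v hv
  unfold Ord
  simp only [Set.mem_ofPred_eq]
  rw [hv, (𝒮.twist n M).1]
  have hinj : Function.Injective fun x : ℚ => x - (n : ℚ) := sub_left_injective
  exact (Multiset.map_injective hinj).eq_iff

lemma ord_series {M : 𝓐} {L : List 𝓐} (h : HasSeries M L) :
    ∀ᶠ v in generic, (∀ S ∈ L, v ∈ 𝒮.Ord S) → v ∈ 𝒮.Ord M := by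
  induction h with
  | zero M hM =>
    refine Filter.Eventually.of_forall fun v _ => ?_
    unfold Ord
    simp only [Set.mem_ofPred_eq]
    rw [(𝒮.zero M hM).1, (𝒮.zero M hM).2 v]
  | cons E L hE hL hs ih =>
    filter_upwards [ih, 𝒮.ord_exact E hE] with v hv hv' h
    exact hv'.2 ⟨hv fun S hS => h S (List.mem_cons_of_mem _ hS), h _ List.mem_cons_self⟩

/-- The property `Large` only depends on almost all places. -/
def Stable (generic : Filter P) (Large : Set P → Prop) : Prop :=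
  ∀ S S' : Set P, Large S → (∀ᶠ v in generic, v ∈ S → v ∈ S') → Large S'

/-- all simple subquotients of `H_c^i(X)`, for all `i`, in one finite list -/
lemma exists_list (hfin : IsFinite T) {X : Scheme.{0}} (f : X ⟶ Spec (CommRingCat.of k))
    (hf : FT True k f) : ∃ L : List 𝓐, (∀ S ∈ L, Simple S ∧ ∃ i : ℤ, SubQuot S (T.H i X f)) ∧
      ∀ᶠ v in generic, (∀ S ∈ L, v ∈ 𝒮.Ord S) → v ∈ 𝒮.OrdScheme f := by
  obtain ⟨N, hN⟩ := hfin.bounded f hf
  choose L hL using hfin.series f hf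
  let I : List ℤ := (Finset.Icc (-(N : ℤ)) N).toList
  refine ⟨I.flatMap L, ?_, ?_⟩
  · intro S hS
    obtain ⟨i, _, hSi⟩ := List.mem_flatMap.1 hS
    exact ⟨((hL i).subquot S hSi).1, i, ((hL i).subquot S hSi).2⟩
  · have h1 : ∀ᶠ v in generic, ∀ i ∈ Finset.Icc (-(N : ℤ)) N,
        (∀ S ∈ L i, v ∈ 𝒮.Ord S) → v ∈ 𝒮.Ord (T.H i X f) := by
      rw [Filter.eventually_all_finset]
      exact fun i _ => 𝒮.ord_series (hL i)
    filter_upwards [h1] with v hv h i
    by_cases hi : i ∈ Finset.Icc (-(N : ℤ)) N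
    · refine hv i hi fun S hS => h S (List.mem_flatMap.2 ⟨i, ?_, hS⟩)
      simpa [I] using hi
    · have h2 : (N : ℤ) < |i| := by
        rw [Finset.mem_Icc, not_and_or, not_le, not_le] at hi
        rcases hi with hi | hi
        · rw [abs_of_neg (by omega)]
          omega
        · rw [abs_of_pos (by omega)]
          omega
      unfold Ord
      simp only [Set.mem_ofPred_eq]
      rw [(𝒮.zero _ (hN i h2)).1, (𝒮.zero _ (hN i h2)).2 v]

end Slopes

/-- a simple pure object is a subquotient of some `H^i(X)(m)`, `X` smooth projective -/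
lemma smooth_of_simple {k : Type} [Field k] {𝓐 : Type u} [Category.{v} 𝓐] [Abelian 𝓐]
    (T : WeightTheory k 𝓐) {X : Scheme.{0}} (f : X ⟶ Spec (CommRingCat.of k)) (hf : FT True k f)
    (i : ℤ) (M : 𝓐) (hM : Simple M) (h : SubQuot M (T.H i X f)) :
    ∃ (Y : Scheme.{0}) (g : Y ⟶ Spec (CommRingCat.of k)) (j m : ℤ), SmoothProjective g ∧
      SubQuot M ((T.tw m).obj (T.H j Y g)) := by
  obtain ⟨e0⟩ := T.tw_zero
  obtain ⟨w, n, S, hS, ⟨e⟩⟩ := T.pure f hf i 0 M hM (h.of_iso (e0.symm.app _))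
  have hne : ∃ a, biproduct.ι S a ≫ e.inv ≠ 0 := by
    by_contra hcon
    push Not at hcon
    have h1 : e.inv = 0 := biproduct.hom_ext' _ _ fun a => by rw [hcon a, comp_zero]
    have h2 : 𝟙 M = 0 := by rw [← e.hom_inv_id, h1, comp_zero]
    exact id_nonzero M h2
  obtain ⟨a, ha⟩ := hne
  have := (hS a).1
  have hiso : IsIso (biproduct.ι S a ≫ e.inv) := isIso_of_hom_simple ha
  obtain ⟨Y, g, j, m, hg, _, hq⟩ := (hS a).2
  exact ⟨Y, g, j, m, hg, hq.of_iso_left (asIso (biproduct.ι S a ≫ e.inv))⟩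

/-- finitely many objects, each with a family of places -/
lemma eventually_list {P : Type} {generic : Filter P} {𝓐 : Type u} (L : List 𝓐)
    (p : 𝓐 → P → Prop) (h : ∀ S ∈ L, ∀ᶠ v in generic, p S v) :
    ∀ᶠ v in generic, ∀ S ∈ L, p S v := by
  induction L with
  | nil => simp
  | cons a L ih =>
    have h1 := ih fun S hS => h S (List.mem_cons_of_mem _ hS)
    filter_upwards [h1, h a List.mem_cons_self] with v hv1 hv2 S hS
    rcases List.mem_cons.1 hS with rfl | hS'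
    · exact hv2
    · exact hv1 S hS'

theorem main {k : Type} [Field k] {𝓐 : Type u} [Category.{v} 𝓐] [Abelian 𝓐]
    (T : WeightTheory k 𝓐) {P : Type} {generic : Filter P} (𝒮 : Slopes T.toTheory generic)
    (hfin : IsFinite T.toTheory) (Large : Set P → Prop) (hst : Slopes.Stable generic Large)
    {S : Set k} (hS : Subfield.closure S = ⊤) (h1 : (1 : k) ∈ S) :
    (𝒮.ForProjective Large ↔ 𝒮.ForCubics S Large) ∧
      (𝒮.ForProjective Large → 𝒮.ForFamilies Large) := by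
  have fam : 𝒮.ForProjective Large → 𝒮.ForFamilies Large := by
    intro h m X f hf
    choose L hL hL' using fun a => 𝒮.exists_list hfin (f a) (hf a)
    let LL : List 𝓐 := (List.finRange m).flatMap L
    have hLL : ∀ M ∈ LL, ∃ (Y : Scheme.{0}) (g : Y ⟶ Spec (CommRingCat.of k)) (j n : ℤ),
        SmoothProjective g ∧ SubQuot M ((T.tw n).obj (T.H j Y g)) := by
      intro M hM
      obtain ⟨a, _, ha⟩ := List.mem_flatMap.1 hM
      obtain ⟨hs, i, hi⟩ := hL a M ha
      exact smooth_of_simple T (f a) (hf a) i M hs hi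
    choose Y g j n hg hsub using fun b : Fin LL.length => hLL (LL.get b) (List.get_mem LL b)
    obtain ⟨Z, z, hz, hZ⟩ := hfin.union LL.length Y g hg
    refine hst _ _ (h z hz) ?_
    have hb : ∀ᶠ v in generic, ∀ b : Fin LL.length, v ∈ 𝒮.OrdScheme z → v ∈ 𝒮.Ord (LL.get b) := by
      rw [Filter.eventually_all]
      intro b
      filter_upwards [𝒮.ord_subquot (hsub b), 𝒮.ord_twist (n b) (T.H (j b) (Y b) (g b)),
        𝒮.ord_subquot (hZ b (j b))] with v h1 h2 h3 hv
      exact h1 (h2.2 (h3 (hv (j b))))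
    have ha : ∀ᶠ v in generic, ∀ a, (∀ M ∈ L a, v ∈ 𝒮.Ord M) → v ∈ 𝒮.OrdScheme (f a) := by
      rw [Filter.eventually_all]
      exact hL'
    filter_upwards [hb, ha] with v hv1 hv2 hv a
    refine hv2 a fun M hM => ?_
    have hMem : M ∈ LL := List.mem_flatMap.2 ⟨a, List.mem_finRange a, hM⟩
    obtain ⟨b, hb⟩ := List.mem_iff_get.1 hMem
    rw [← hb]
    exact hv1 b hv
  refine ⟨⟨fun h m M hM => ?_, fun h X f hf => ?_⟩, fam⟩
  · choose n r g j hg hMg using hM
    refine hst _ _ (fam h m _ (fun a => str k (Cubic (g a))) fun a => cubic_ft (g a)) ?_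
    refine Filter.Eventually.of_forall fun v hv a => ?_
    have := hv a (j a)
    rw [hMg a]
    exact this
  · obtain ⟨L, hL, hL'⟩ := 𝒮.exists_list hfin f hf.ft
    have hc : ∀ b : Fin L.length, ∃ M : 𝓐, T.IsHC S M ∧ ∃ m : ℤ,
        SubQuot (L.get b) ((T.tw m).obj M) := by
      intro b
      obtain ⟨hs, i, hi⟩ := hL _ (List.get_mem L b)
      obtain ⟨e0⟩ := T.tw_zero
      obtain ⟨n, r, g, hg, j, m, hq⟩ := T.toTheory.fromCubic hS h1 f hf.ft i 0 _ hs
        (hi.of_iso (e0.symm.app _))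
      exact ⟨T.HC j g, ⟨n, r, g, j, hg, rfl⟩, m, hq⟩
    choose M hM m hq using hc
    refine hst _ _ (h L.length M hM) ?_
    have hb : ∀ᶠ v in generic, ∀ b : Fin L.length, v ∈ 𝒮.Ord (M b) → v ∈ 𝒮.Ord (L.get b) := by
      rw [Filter.eventually_all]
      intro b
      filter_upwards [𝒮.ord_subquot (hq b), 𝒮.ord_twist (m b) (M b)] with v h1 h2 hv
      exact h1 (h2.2 hv)
    filter_upwards [hb, hL'] with v hv1 hv2 hv
    refine hv2 fun N hN => ?_
    obtain ⟨b, hb⟩ := List.mem_iff_get.1 hN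
    rw [← hb]
    exact hv1 b (hv b)

end Pool.Agent.TH131.Ord
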