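import Pool.Agent.TH131.Ord.Poly
import Pool.Agent.TH590.JH.Pure

/-!
# Ordinary places: definitions
-/

set_option autoImplicit false

open CategoryTheory CategoryTheory.Limits AlgebraicGeometry

namespace Pool.Agent.TH131.Ord

open Pool.Agent.TH90.Cub Pool.Agent.TH590.JH

universe v u

/-- `M` has a composition series with the simple quotients in `L`. -/
inductive HasSeries {𝓐 : Type u} [Category.{v} 𝓐] [Abelian 𝓐] : 𝓐 → List 𝓐 → Prop
  | zero (M : 𝓐) : IsZero M → HasSeries M []
  | cons (E : ShortComplex 𝓐) (L : List 𝓐) : E.ShortExact → HasSeries E.X₁ L → Simple E.X₃ →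
      HasSeries E.X₂ (E.X₃ :: L)

/-- Newton and Hodge polygons. `P` is the set of places, `generic` the filter of the sets which
contain almost all places. -/
structure Slopes {k : Type} [Field k] {𝓐 : Type u} [Category.{v} 𝓐] [Abelian 𝓐] (T : Theory k 𝓐)
    {P : Type} (generic : Filter P) where
  /-- the slopes of the Newton polygon of `M` at the place `v` -/
  newton : 𝓐 → P → Multiset ℚ
  /-- the slopes of the Hodge polygon of `M` -/
  hodge : 𝓐 → Multiset ℚ
  zero : ∀ M : 𝓐, IsZero M → hodge M = 0 ∧ ∀ v, newton M v = 0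
  exact : ∀ E : ShortComplex 𝓐, E.ShortExact → hodge E.X₂ = hodge E.X₁ + hodge E.X₃ ∧
    ∀ᶠ v in generic, newton E.X₂ v = newton E.X₁ v + newton E.X₃ v
  twist : ∀ (n : ℤ) (M : 𝓐), hodge ((T.tw n).obj M) = (hodge M).map (· - (n : ℚ)) ∧
    ∀ᶠ v in generic, newton ((T.tw n).obj M) v = (newton M v).map (· - (n : ℚ))
  /-- the Newton polygon lies on or above the Hodge polygon (Mazur; weak admissibility) -/
  mazur : ∀ M : 𝓐, ∀ᶠ v in generic, Above (newton M v) (hodge M)

/-- Finiteness properties of the objects `H_c^i(X)`. -/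
structure IsFinite {k : Type} [Field k] {𝓐 : Type u} [Category.{v} 𝓐] [Abelian 𝓐]
    (T : Theory k 𝓐) : Prop where
  series : ∀ {X : Scheme.{0}} (f : X ⟶ Spec (CommRingCat.of k)), FT True k f → ∀ i : ℤ,
    ∃ L, HasSeries (T.H i X f) L
  bounded : ∀ {X : Scheme.{0}} (f : X ⟶ Spec (CommRingCat.of k)), FT True k f →
    ∃ N : ℕ, ∀ i : ℤ, (N : ℤ) < |i| → IsZero (T.H i X f)
  /-- the disjoint union of smooth projective schemes -/
  union : ∀ (m : ℕ) (X : Fin m → Scheme.{0}) (f : ∀ a, X a ⟶ Spec (CommRingCat.of k)),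
    (∀ a, SmoothProjective (f a)) →
    ∃ (Y : Scheme.{0}) (g : Y ⟶ Spec (CommRingCat.of k)), SmoothProjective g ∧
      ∀ a i, SubQuot (T.H i (X a) (f a)) (T.H i Y g)

namespace Slopes

variable {k : Type} [Field k] {𝓐 : Type u} [Category.{v} 𝓐] [Abelian 𝓐] {T : Theory k 𝓐}
  {P : Type} {generic : Filter P} (𝒮 : Slopes T generic)

/-- The ordinary places of `M`: the Newton polygon is the Hodge polygon. -/
def Ord (M : 𝓐) : Set P := {v | 𝒮.newton M v = 𝒮.hodge M}

/-- The ordinary places of `X`: the Newton polygon of `H_c^i(X)` is the Hodge polygon, for all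
`i`. -/
def OrdScheme {X : Scheme.{0}} (f : X ⟶ Spec (CommRingCat.of k)) : Set P :=
  {v | ∀ i : ℤ, v ∈ 𝒮.Ord (T.H i X f)}

/-- `Large` contains the set of ordinary places of every smooth projective scheme over `k`. -/
def ForProjective (Large : Set P → Prop) : Prop :=
  ∀ {X : Scheme.{0}} (f : X ⟶ Spec (CommRingCat.of k)), SmoothProjective f →
    Large (𝒮.OrdScheme f)

/-- `Large` contains the set of common ordinary places of any finite family of motives `H_c^j(C)`,
where the `C` are hypersurfaces `g_0 t_0 + ⋯ + g_r t_r = 1`, each `g_i` being of the form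
`x_a x_b - x_c`, `x_a + x_b - x_c` or `x_a - s` with `s ∈ S`. -/
def ForCubics (S : Set k) (Large : Set P → Prop) : Prop :=
  ∀ (m : ℕ) (M : Fin m → 𝓐), (∀ a, T.IsHC S (M a)) → Large {v | ∀ a, v ∈ 𝒮.Ord (M a)}

/-- `Large` contains the set of common ordinary places of any finite family of separated schemes of
finite type over `k`. -/
def ForFamilies (Large : Set P → Prop) : Prop :=
  ∀ (m : ℕ) (X : Fin m → Scheme.{0}) (f : ∀ a, X a ⟶ Spec (CommRingCat.of k)),
    (∀ a, FT True k (f a)) → Large {v | ∀ a, v ∈ 𝒮.OrdScheme (f a)}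

end Slopes

end Pool.Agent.TH131.Ord
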