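import Pool.Agent.TH131.Ord.Main

/-!
# Ordinary points: dense sets of closed points
-/

set_option autoImplicit false

open Filter

namespace Pool.Agent.TH131.Ord

/-- The filter of the sets of closed points of `Spec A` which contain all closed points of a nonempty
open subset `a ≠ 0`, for a domain `A`. -/
def openSets (A : Type) [CommRing A] [IsDomain A] : Filter (MaximalSpectrum A) where
  sets := {U | ∃ a : A, a ≠ 0 ∧ ∀ s : MaximalSpectrum A, a ∉ s.asIdeal → s ∈ U}
  univ_sets := ⟨1, one_ne_zero, fun _ _ => trivial⟩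
  sets_of_superset := by
    rintro U V ⟨a, ha, h⟩ hUV
    exact ⟨a, ha, fun s hs => hUV (h s hs)⟩
  inter_sets := by
    rintro U V ⟨a, ha, h⟩ ⟨b, hb, h'⟩
    refine ⟨a * b, mul_ne_zero ha hb, fun s hs => ⟨h s fun ha' => hs ?_, h' s fun hb' => hs ?_⟩⟩
    · exact s.asIdeal.mul_mem_right b ha'
    · exact s.asIdeal.mul_mem_left a hb'

/-- The set `S` of closed points is dense in `Spec A`, for a domain `A`: it meets every nonempty open
subset `a ≠ 0`. -/
def DensePoints (A : Type) [CommRing A] (S : Set (MaximalSpectrum A)) : Prop :=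
  ∀ a : A, a ≠ 0 → ∃ s ∈ S, a ∉ s.asIdeal

lemma stable_dense (A : Type) [CommRing A] [IsDomain A] :
    Slopes.Stable (openSets A) (DensePoints A) := by
  rintro S S' h ⟨b, hb, h'⟩ a ha
  obtain ⟨s, hs, hs'⟩ := h (a * b) (mul_ne_zero ha hb)
  refine ⟨s, ?_, fun ha' => hs' (s.asIdeal.mul_mem_right b ha')⟩
  exact h' s (fun hb' => hs' (s.asIdeal.mul_mem_left a hb')) hs

end Pool.Agent.TH131.Ord
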