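import Pool.Agent.TH131.Ord.Main

/-!
# Ordinary places: sets of positive density
-/

set_option autoImplicit false

open Filter

namespace Pool.Agent.TH131.Ord

/-- The set `S` has positive (lower) density with respect to the norm `N`: there is `c > 0` such that,
for all large `x`, at least `c` times the number of all `v` with `N v ≤ x` is the number of `v ∈ S` with
`N v ≤ x`. -/
def PositiveDensity {P : Type} (N : P → ℕ) (S : Set P) : Prop :=
  ∃ c : ℝ, 0 < c ∧ ∀ᶠ x : ℕ in atTop,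
    c * ({v | N v ≤ x}.ncard : ℝ) ≤ ({v | v ∈ S ∧ N v ≤ x}.ncard : ℝ)

lemma stable_density {P : Type} [Infinite P] (N : P → ℕ) (hN : ∀ x : ℕ, {v | N v ≤ x}.Finite) :
    Slopes.Stable (cofinite : Filter P) (PositiveDensity N) := by
  rintro S S' ⟨c, hc, h⟩ hS
  let F : Set P := {v | ¬ (v ∈ S → v ∈ S')}
  have hF : F.Finite := hS
  have hcount : ∀ x : ℕ, ({v | v ∈ S ∧ N v ≤ x}.ncard : ℝ) ≤
      ({v | v ∈ S' ∧ N v ≤ x}.ncard : ℝ) + (F.ncard : ℝ) := by
    intro x
    have h1 : {v | v ∈ S ∧ N v ≤ x} ⊆ {v | v ∈ S' ∧ N v ≤ x} ∪ F := by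
      intro v hv
      by_cases hv' : v ∈ S'
      · exact Or.inl ⟨hv', hv.2⟩
      · right
        change ¬ (v ∈ S → v ∈ S')
        exact fun h => hv' (h hv.1)
    have h2 : ({v | v ∈ S' ∧ N v ≤ x} ∪ F).Finite :=
      ((hN x).subset fun v hv => hv.2).union hF
    have h3 := (Set.ncard_le_ncard h1 h2).trans (Set.ncard_union_le _ _)
    exact_mod_cast h3
  have hinf : ∀ n : ℕ, ∀ᶠ x : ℕ in atTop, n ≤ {v | N v ≤ x}.ncard := by
    intro n
    obtain ⟨s, hs⟩ := Infinite.exists_subset_card_eq P n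
    filter_upwards [eventually_ge_atTop (s.sup N)] with x hx
    rw [← hs, ← Set.ncard_coe_finset]
    refine Set.ncard_le_ncard (fun v hv => ?_) (hN x)
    exact (Finset.le_sup (f := N) hv).trans hx
  obtain ⟨n, hn⟩ := exists_nat_ge (2 * (F.ncard : ℝ) / c)
  refine ⟨c / 2, by positivity, ?_⟩
  filter_upwards [h, hinf n] with x h1 h2
  have h3 : (n : ℝ) ≤ ({v | N v ≤ x}.ncard : ℝ) := by exact_mod_cast h2
  have h4 : 2 * (F.ncard : ℝ) ≤ c * ({v | N v ≤ x}.ncard : ℝ) := by
    have h5 := hn.trans h3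
    rw [div_le_iff₀ hc] at h5
    linarith
  have h6 := hcount x
  linarith

open IsDedekindDomain NumberField

lemma infinite_places (K : Type) [Field K] [NumberField K] :
    Infinite (HeightOneSpectrum (𝓞 K)) := by
  have key : ∀ p : Nat.Primes, ∃ v : HeightOneSpectrum (𝓞 K), ((p : ℕ) : 𝓞 K) ∈ v.asIdeal := by
    intro p
    have hnu : ¬ IsUnit (((p : ℕ) : ℤ) : 𝓞 K) := by
      intro hu
      have hint : (algebraMap ℤ (𝓞 K)).IsIntegral := by
        intro x
        exact Algebra.IsIntegral.isIntegral x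
      have hloc := hint.isLocalHom (RingHom.injective_int (algebraMap ℤ (𝓞 K)))
      have hu' : IsUnit (algebraMap ℤ (𝓞 K) ((p : ℕ) : ℤ)) := by simpa using hu
      have h1 := hloc.map_nonunit _ hu'
      rw [Int.isUnit_iff_natAbs_eq] at h1
      exact p.2.one_lt.ne' (by simpa using h1)
    have hne : Ideal.span {((p : ℕ) : 𝓞 K)} ≠ ⊤ := by
      rw [Ne, Ideal.span_singleton_eq_top]
      simpa using hnu
    obtain ⟨M, hM, hle⟩ := Ideal.exists_le_maximal _ hne
    have hmem : ((p : ℕ) : 𝓞 K) ∈ M := hle (Ideal.subset_span rfl)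
    refine ⟨⟨M, hM.isPrime, ?_⟩, hmem⟩
    rintro rfl
    have : ((p : ℕ) : 𝓞 K) = 0 := by simpa using hmem
    exact p.2.ne_zero (by exact_mod_cast this)
  choose v hv using key
  have hinj : Function.Injective v := by
    intro p q hpq
    by_contra hne
    have hco : Nat.Coprime (p : ℕ) (q : ℕ) :=
      (Nat.coprime_primes p.2 q.2).2 fun h => hne (Subtype.ext h)
    have h1 : IsCoprime ((p : ℕ) : ℤ) ((q : ℕ) : ℤ) := Nat.isCoprime_iff_coprime.2 hco
    obtain ⟨a, b, hab⟩ := h1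
    have h2 : (1 : 𝓞 K) ∈ (v p).asIdeal := by
      have h3 : (1 : 𝓞 K) = (a : 𝓞 K) * ((p : ℕ) : 𝓞 K) + (b : 𝓞 K) * ((q : ℕ) : 𝓞 K) := by
        have := congrArg (fun x : ℤ => (x : 𝓞 K)) hab
        push_cast at this
        exact this.symm
      rw [h3]
      refine (v p).asIdeal.add_mem ((v p).asIdeal.mul_mem_left _ (hv p)) ?_
      rw [hpq]
      exact (v q).asIdeal.mul_mem_left _ (hv q)
    exact (v p).isPrime.ne_top ((Ideal.eq_top_iff_one _).2 h2)
  exact Infinite.of_injective v hinj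

/-- The norm of a finite place. -/
noncomputable def placeNorm (K : Type) [Field K] [NumberField K] (v : HeightOneSpectrum (𝓞 K)) : ℕ :=
  Ideal.absNorm v.asIdeal

lemma finite_norm (K : Type) [Field K] [NumberField K] (x : ℕ) :
    {v : HeightOneSpectrum (𝓞 K) | placeNorm K v ≤ x}.Finite := by
  have h1 : {I : Ideal (𝓞 K) | Ideal.absNorm I ≤ x}.Finite := Ideal.finite_setOf_absNorm_le x
  refine Set.Finite.of_finite_image (f := fun v : HeightOneSpectrum (𝓞 K) => v.asIdeal)
    (h1.subset ?_) ?_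
  · rintro _ ⟨v, hv, rfl⟩
    exact hv
  · intro v _ w _ h
    exact HeightOneSpectrum.ext h

end Pool.Agent.TH131.Ord
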