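import Mathlib

/-!
# Newton and Hodge polygons
-/

set_option autoImplicit false

namespace Pool.Agent.TH131.Ord

/-- The polygon with the slopes `S` lies on or above the polygon with the slopes `H`: for every `k`
and every choice of `k` elements of `S` there are `k` elements of `H` whose sum is not larger. -/
def Above (S H : Multiset ℚ) : Prop := ∀ T ≤ S, ∃ T' ≤ H, T'.card = T.card ∧ T'.sum ≤ T.sum

/-- the sum of the positive parts of `t - x`, `x ∈ S` -/
def phi (t : ℚ) (S : Multiset ℚ) : ℚ := (S.map fun x => max (t - x) 0).sum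

lemma phi_add (t : ℚ) (S H : Multiset ℚ) : phi t (S + H) = phi t S + phi t H := by
  simp [phi]

lemma phi_cons (t x : ℚ) (S : Multiset ℚ) : phi t (x ::ₘ S) = max (t - x) 0 + phi t S := by
  simp [phi]

lemma phi_nonneg (t : ℚ) (S : Multiset ℚ) : 0 ≤ phi t S := by
  induction S using Multiset.induction_on with
  | empty => simp [phi]
  | cons x S ih =>
    rw [phi_cons]
    exact add_nonneg (le_max_right _ _) ih

lemma phi_le_of_le {t : ℚ} {S H : Multiset ℚ} (h : S ≤ H) : phi t S ≤ phi t H := by
  obtain ⟨U, rfl⟩ := Multiset.le_iff_exists_add.1 h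
  rw [phi_add]
  linarith [phi_nonneg t U]

/-- the part of `S` below `t` -/
lemma phi_filter (t : ℚ) (S : Multiset ℚ) :
    phi t S = (S.filter (· < t)).card * t - (S.filter (· < t)).sum := by
  induction S using Multiset.induction_on with
  | empty => simp [phi]
  | cons x S ih =>
    rw [phi_cons, ih]
    by_cases hx : x < t
    · rw [Multiset.filter_cons_of_pos (p := (· < t)) _ hx, max_eq_left (by linarith)]
      simp only [Multiset.card_cons, Multiset.sum_cons, Nat.cast_add, Nat.cast_one]
      ring
    · rw [Multiset.filter_cons_of_neg (p := (· < t)) _ hx, max_eq_right (by linarith)]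
      ring

lemma le_phi (t : ℚ) (S : Multiset ℚ) : S.card * t - S.sum ≤ phi t S := by
  induction S using Multiset.induction_on with
  | empty => simp [phi]
  | cons x S ih =>
    rw [phi_cons]
    simp only [Multiset.card_cons, Multiset.sum_cons, Nat.cast_add, Nat.cast_one]
    linarith [le_max_left (t - x) 0]

lemma Above.phi_le {S H : Multiset ℚ} (h : Above S H) (t : ℚ) : phi t S ≤ phi t H := by
  obtain ⟨T', hT', hc, hs⟩ := h (S.filter (· < t)) (Multiset.filter_le _ _)
  rw [phi_filter t S]
  calc ((S.filter (· < t)).card : ℚ) * t - (S.filter (· < t)).sum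
      ≤ (T'.card : ℚ) * t - T'.sum := by rw [hc]; linarith
    _ ≤ phi t T' := le_phi t T'
    _ ≤ phi t H := phi_le_of_le hT'

lemma second_diff (x ε : ℚ) (hε : 0 < ε) (S : Multiset ℚ) (h : ∀ y ∈ S, y ≠ x → ε ≤ |y - x|) :
    phi (x + ε) S - 2 * phi x S + phi (x - ε) S = ε * S.count x := by
  induction S using Multiset.induction_on with
  | empty => simp [phi]
  | cons y S ih =>
    have ih' := ih fun z hz => h z (Multiset.mem_cons_of_mem hz)
    rw [phi_cons, phi_cons, phi_cons]
    by_cases hy : y = x
    · subst hy
      rw [Multiset.count_cons_self]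
      have e1 : max (y + ε - y) 0 = ε := by rw [max_eq_left (by linarith)]; ring
      have e2 : max (y - y) (0 : ℚ) = 0 := by simp
      have e3 : max (y - ε - y) 0 = 0 := max_eq_right (by linarith)
      rw [e1, e2, e3]
      push_cast
      linarith
    · rw [Multiset.count_cons_of_ne (Ne.symm hy)]
      have h1 := h y (Multiset.mem_cons_self y S) hy
      rcases le_or_gt x y with h2 | h2
      · rw [abs_of_nonneg (by linarith)] at h1
        have e1 : max (x + ε - y) 0 = 0 := max_eq_right (by linarith)
        have e2 : max (x - y) 0 = 0 := max_eq_right (by linarith)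
        have e3 : max (x - ε - y) 0 = 0 := max_eq_right (by linarith)
        rw [e1, e2, e3]
        linarith
      · rw [abs_of_neg (by linarith)] at h1
        have e1 : max (x + ε - y) 0 = x + ε - y := max_eq_left (by linarith)
        have e2 : max (x - y) 0 = x - y := max_eq_left (by linarith)
        have e3 : max (x - ε - y) 0 = x - ε - y := max_eq_left (by linarith)
        rw [e1, e2, e3]
        linarith

lemma exists_gap (x : ℚ) (S : Multiset ℚ) : ∃ ε : ℚ, 0 < ε ∧ ∀ y ∈ S, y ≠ x → ε ≤ |y - x| := by
  induction S using Multiset.induction_on with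
  | empty => exact ⟨1, one_pos, by simp⟩
  | cons z S ih =>
    obtain ⟨ε, hε, h⟩ := ih
    by_cases hz : z = x
    · refine ⟨ε, hε, fun y hy hyx => ?_⟩
      rcases Multiset.mem_cons.1 hy with rfl | hy'
      · exact absurd hz hyx
      · exact h y hy' hyx
    · refine ⟨min ε |z - x|, lt_min hε (abs_pos.2 (sub_ne_zero.2 hz)), fun y hy hyx => ?_⟩
      rcases Multiset.mem_cons.1 hy with rfl | hy'
      · exact min_le_right _ _
      · exact (min_le_left _ _).trans (h y hy' hyx)

lemma eq_of_phi {S H : Multiset ℚ} (h : ∀ t, phi t S = phi t H) : S = H := by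
  ext x
  obtain ⟨ε, hε, h1⟩ := exists_gap x (S + H)
  have e1 := second_diff x ε hε S fun y hy => h1 y (Multiset.mem_add.2 (Or.inl hy))
  have e2 := second_diff x ε hε H fun y hy => h1 y (Multiset.mem_add.2 (Or.inr hy))
  rw [h, h, h, e2] at e1
  have e3 := mul_left_cancel₀ hε.ne' e1
  exact_mod_cast e3.symm

/-- If the sum of two Newton polygons is the sum of the Hodge polygons below them, then both agree
with their Hodge polygon. -/
lemma eq_and_eq {A A' C C' : Multiset ℚ} (hA : Above A A') (hC : Above C C')
    (h : A + C = A' + C') : A = A' ∧ C = C' := by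
  have key : ∀ t, phi t A = phi t A' ∧ phi t C = phi t C' := by
    intro t
    have h1 := congrArg (phi t) h
    rw [phi_add, phi_add] at h1
    have h2 := hA.phi_le t
    have h3 := hC.phi_le t
    constructor <;> linarith
  exact ⟨eq_of_phi fun t => (key t).1, eq_of_phi fun t => (key t).2⟩

end Pool.Agent.TH131.Ord
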